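import Pool.Agent.Q266.RP.Stm

set_option autoImplicit false

namespace Pool.Agent.Q109.RP

open Pool.Agent.Q266.RP

theorem ncl : S_NCL := by
  intro G _ a b hab K hK
  set N : Subgroup G := Subgroup.normalClosure {a⁻¹ * b⁻¹ * a * b} with hN
  have hNK : N ≤ K := by
    rw [hN, Subgroup.normalClosure, Subgroup.closure_le]
    intro x hx
    rw [Group.mem_conjugatesOfSet_iff] at hx
    obtain ⟨c, hc, hcx⟩ := hx
    rw [Set.mem_singleton_iff] at hc
    subst hc
    obtain ⟨g, hg⟩ := isConj_iff.1 hcx
    rw [← hg]
    exact hK g
  refine le_trans ?_ hNK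
  haveI : N.Normal := Subgroup.normalClosure_normal
  set q : G →* G ⧸ N := QuotientGroup.mk' N with hq
  have hq1 : ∀ x : G, q x = 1 ↔ x ∈ N := fun x => by
    rw [hq, QuotientGroup.mk'_apply, QuotientGroup.eq_one_iff]
  have hc : q a * q b = q b * q a := by
    have h1 : q (a⁻¹ * b⁻¹ * a * b) = 1 :=
      (hq1 _).2 (Subgroup.subset_normalClosure (Set.mem_singleton _))
    rw [map_mul, map_mul, map_mul, map_inv, map_inv] at h1
    have h2 : q a * q b = (q b * q a) * ((q a)⁻¹ * (q b)⁻¹ * q a * q b) := by group
    rw [h2, h1, mul_one]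
  have hC : ∀ g : G, q g * q a = q a * q g ∧ q g * q b = q b * q g := by
    intro g
    have hg : g ∈ Subgroup.closure {a, b} := by rw [hab]; exact Subgroup.mem_top g
    induction hg using Subgroup.closure_induction with
    | mem x hx =>
      rcases hx with rfl | hx
      · exact ⟨rfl, hc⟩
      · rw [Set.mem_singleton_iff] at hx
        subst hx
        exact ⟨hc.symm, rfl⟩
    | one => rw [map_one, one_mul, one_mul, mul_one, mul_one]; exact ⟨rfl, rfl⟩
    | mul x y _ _ hx hy =>
      rw [map_mul]
      exact ⟨(Commute.mul_left (show Commute (q x) (q a) from hx.1) hy.1),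
        (Commute.mul_left (show Commute (q x) (q b) from hx.2) hy.2)⟩
    | inv x _ hx =>
      rw [map_inv]
      exact ⟨(Commute.inv_left (show Commute (q x) (q a) from hx.1)),
        (Commute.inv_left (show Commute (q x) (q b) from hx.2))⟩
  have hZ : ∀ h g : G, q g * q h = q h * q g := by
    intro h g
    have hh : h ∈ Subgroup.closure {a, b} := by rw [hab]; exact Subgroup.mem_top h
    induction hh using Subgroup.closure_induction with
    | mem x hx =>
      rcases hx with rfl | hx
      · exact (hC g).1
      · rw [Set.mem_singleton_iff] at hx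
        subst hx
        exact (hC g).2
    | one => rw [map_one, one_mul, mul_one]
    | mul x y _ _ hx hy =>
      rw [map_mul]
      exact Commute.mul_right (show Commute (q g) (q x) from hx) hy
    | inv x _ hx =>
      rw [map_inv]
      exact Commute.inv_right (show Commute (q g) (q x) from hx)
  rw [commutator_def, Subgroup.commutator_le]
  intro g _ h _
  rw [← hq1, map_commutatorElement, commutatorElement_eq_one_iff_mul_comm]
  exact hZ h g

end Pool.Agent.Q109.RP
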